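import Pool.Agent.H798.BV.Stm3

/-! Project BV (helper798), task B3-KW (helper225): the second moment of the critical points around
`a`, all `p, s > 1`.  The lemma `breg_nonneg` is copied from `Pool/Agent/H25/BV/Avp.lean` (helper25). -/

set_option autoImplicit false

namespace Pool.Agent.H225.BV

open Pool.Agent.H798.BV
open scoped ComplexConjugate

/-- the Bregman distances are nonnegative in the mean (helper25) -/
lemma breg_nonneg {m : ℕ} {p a : ℝ} (hB2 : ∀ z w : ℂ,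
      ‖w‖ ^ p + p * ((starRingEnd ℂ) (chi p w) * (z - w)).re ≤ ‖z‖ ^ p)
    (S : Fin (m + 1) → ℝ) (z : Fin (m + 1) → ℂ) (w : ℂ)
    (hS0 : ∀ j, 0 ≤ S j) (hS1 : ∑ j, S j = 1) (hw : w = ∑ j, (S j : ℂ) * z j) :
    ‖w - a‖ ^ p ≤ ∑ j, S j * ‖z j - a‖ ^ p := by
  have hS1c : ∑ j, (S j : ℂ) = 1 := by exact_mod_cast congrArg (fun x : ℝ => (x : ℂ)) hS1
  have h0 : ∑ j, (S j : ℂ) * (z j - w) = 0 := by
    simp only [mul_sub, Finset.sum_sub_distrib]
    rw [← Finset.sum_mul, hS1c, ← hw, one_mul, sub_self]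
  have h1 : ∀ j ∈ Finset.univ, S j * ‖w - a‖ ^ p +
      p * (conj (chi p (w - a)) * ((S j : ℂ) * (z j - w))).re ≤ S j * ‖z j - a‖ ^ p := by
    intro j _
    have h2 := hB2 (z j - a) (w - a)
    have e1 : z j - a - (w - a) = z j - w := by ring
    rw [e1] at h2
    have h3 := mul_le_mul_of_nonneg_left h2 (hS0 j)
    have e4 : (conj (chi p (w - a)) * ((S j : ℂ) * (z j - w))).re =
        S j * (conj (chi p (w - a)) * (z j - w)).re := by
      rw [mul_left_comm, Complex.re_ofReal_mul]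
    rw [e4]
    linarith
  have h2 := Finset.sum_le_sum h1
  rw [Finset.sum_add_distrib, ← Finset.sum_mul, hS1, one_mul, ← Finset.mul_sum,
    ← Complex.re_sum, ← Finset.mul_sum, h0, mul_zero, Complex.zero_re, mul_zero, add_zero] at h2
  exact h2

lemma q2_nonneg (z : ℂ) : 0 ≤ q2 z := by
  unfold q2
  positivity

lemma q2_le (z : ℂ) : q2 z ≤ 2 := by
  unfold q2
  rw [div_le_iff₀ (by positivity)]
  have h := Complex.sq_norm z
  rw [Complex.normSq_apply] at h
  nlinarith [sq_nonneg z.re, sq_nonneg z.im]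

/-- the mean of `q2` -/
lemma mean_q2 {m : ℕ} {p a K : ℝ} (S : Fin (m + 1) → ℝ) (z : Fin (m + 1) → ℂ) (w γ : ℂ)
    (hS0 : ∀ j, 0 ≤ S j) (hS1 : ∑ j, S j = 1) (hw : w = ∑ j, (S j : ℂ) * z j)
    (h : ∀ z : ℂ, |q2 z - q2 w - (γ * (z - w)).re| ≤
        K * (‖z - a‖ ^ p - ‖w - a‖ ^ p - p * ((starRingEnd ℂ) (chi p (w - a)) * (z - w)).re)) :
    |∑ j, S j * q2 (z j) - q2 w| ≤ K * (∑ j, S j * ‖z j - a‖ ^ p - ‖w - a‖ ^ p) := by
  have hS1c : ∑ j, (S j : ℂ) = 1 := by exact_mod_cast congrArg (fun x : ℝ => (x : ℂ)) hS1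
  have h0 : ∑ j, (S j : ℂ) * (z j - w) = 0 := by
    simp only [mul_sub, Finset.sum_sub_distrib]
    rw [← Finset.sum_mul, hS1c, ← hw, one_mul, sub_self]
  have key : ∀ c : ℂ, ∑ j, S j * (c * (z j - w)).re = 0 := by
    intro c
    have e : ∀ j ∈ Finset.univ, S j * (c * (z j - w)).re = (c * ((S j : ℂ) * (z j - w))).re := by
      intro j _
      rw [mul_left_comm, Complex.re_ofReal_mul]
    rw [Finset.sum_congr rfl e, ← Complex.re_sum, ← Finset.mul_sum, h0, mul_zero, Complex.zero_re]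
  have e1 : ∑ j, S j * q2 (z j) - q2 w =
      ∑ j, S j * (q2 (z j) - q2 w - (γ * (z j - w)).re) := by
    simp only [mul_sub, Finset.sum_sub_distrib]
    rw [← Finset.sum_mul, hS1, one_mul]
    have h1 := key γ
    simp only [mul_sub] at h1
    rw [h1]
    ring
  have e2 : K * (∑ j, S j * ‖z j - a‖ ^ p - ‖w - a‖ ^ p) =
      ∑ j, S j * (K * (‖z j - a‖ ^ p - ‖w - a‖ ^ p -
        p * ((starRingEnd ℂ) (chi p (w - a)) * (z j - w)).re)) := by
    have h1 := key (conj (chi p (w - a)))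
    have h2 : ∀ j ∈ Finset.univ, S j * (K * (‖z j - a‖ ^ p - ‖w - a‖ ^ p -
        p * ((starRingEnd ℂ) (chi p (w - a)) * (z j - w)).re)) =
        K * (S j * ‖z j - a‖ ^ p) - K * ‖w - a‖ ^ p * S j -
          K * p * (S j * ((starRingEnd ℂ) (chi p (w - a)) * (z j - w)).re) := by
      intro j _
      ring
    rw [Finset.sum_congr rfl h2, Finset.sum_sub_distrib, Finset.sum_sub_distrib, ← Finset.mul_sum,
      ← Finset.mul_sum, ← Finset.mul_sum, h1, hS1]
    ring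
  rw [e1, e2]
  refine (Finset.abs_sum_le_sum_abs _ _).trans (Finset.sum_le_sum fun j _ => ?_)
  rw [abs_mul, abs_of_nonneg (hS0 j)]
  exact mul_le_mul_of_nonneg_left (h (z j)) (hS0 j)

/-- `q2` is Lipschitz under real shifts -/
lemma q2_shift (W : ℂ) {a : ℝ} (ha : 0 ≤ a) : |q2 (W + a) - q2 W| ≤ 2 * a := by
  have h1 := Complex.sq_norm W
  have h2 := Complex.sq_norm (W + a)
  rw [Complex.normSq_apply] at h1 h2
  simp only [Complex.add_re, Complex.add_im, Complex.ofReal_re, Complex.ofReal_im, add_zero] at h2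
  unfold q2
  rw [h1, h2]
  simp only [Complex.add_re, Complex.ofReal_re]
  set x := W.re
  set y := W.im
  have hD : 0 < 1 + (x * x + y * y) := by nlinarith [sq_nonneg x, sq_nonneg y]
  have hD' : 0 < 1 + ((x + a) * (x + a) + y * y) := by nlinarith [sq_nonneg (x + a), sq_nonneg y]
  have e : 2 * (x + a) ^ 2 / (1 + ((x + a) * (x + a) + y * y)) - 2 * x ^ 2 / (1 + (x * x + y * y)) =
      2 * a * ((2 * x + a) * (1 + y * y)) /
        ((1 + ((x + a) * (x + a) + y * y)) * (1 + (x * x + y * y))) := by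
    field_simp
    ring
  rw [e, abs_div, abs_of_pos (mul_pos hD' hD), div_le_iff₀ (mul_pos hD' hD), abs_mul,
    abs_of_nonneg (by linarith : 0 ≤ 2 * a)]
  apply mul_le_mul_of_nonneg_left _ (by linarith)
  rw [abs_mul, abs_of_nonneg (by nlinarith [sq_nonneg y] : 0 ≤ 1 + y * y)]
  have k1 : |2 * x + a| ≤ |x| + |x + a| := by
    have : 2 * x + a = x + (x + a) := by ring
    rw [this]
    exact abs_add_le _ _
  have k2 : 2 * |x| ≤ 1 + (x * x + y * y) := by
    have := sq_abs x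
    nlinarith [sq_nonneg (|x| - 1), sq_nonneg y]
  have k3 : 2 * |x + a| ≤ 1 + ((x + a) * (x + a) + y * y) := by
    have := sq_abs (x + a)
    nlinarith [sq_nonneg (|x + a| - 1), sq_nonneg y]
  have k4 : 1 + y * y ≤ 1 + (x * x + y * y) := by nlinarith [sq_nonneg x]
  have k5 : 1 + y * y ≤ 1 + ((x + a) * (x + a) + y * y) := by nlinarith [sq_nonneg (x + a)]
  have hy : 0 ≤ 1 + y * y := by nlinarith [sq_nonneg y]
  have k6 : |x| * (1 + y * y) ≤ (1 + (x * x + y * y)) / 2 * (1 + ((x + a) * (x + a) + y * y)) :=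
    mul_le_mul (by linarith) k5 hy (by linarith)
  have k7 : |x + a| * (1 + y * y) ≤
      (1 + ((x + a) * (x + a) + y * y)) / 2 * (1 + (x * x + y * y)) :=
    mul_le_mul (by linarith) k4 hy (by linarith)
  have k8 := mul_le_mul_of_nonneg_right k1 hy
  nlinarith

lemma q2_circle (W : ℂ) (hW : W ≠ 0) : |q2 W - (W.re / ‖W‖) ^ 2| ≤ 2 * |‖W‖ - 1| := by
  have hr : 0 < ‖W‖ := norm_pos_iff.2 hW
  set r := ‖W‖
  have hu : (W.re / r) ^ 2 ≤ 1 := by
    rw [div_pow, div_le_one (by positivity)]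
    have h := Complex.sq_norm W
    rw [Complex.normSq_apply] at h
    nlinarith [sq_nonneg W.im]
  have e : q2 W - (W.re / r) ^ 2 = (W.re / r) ^ 2 * ((r - 1) * (r + 1) / (1 + r ^ 2)) := by
    unfold q2
    change 2 * W.re ^ 2 / (1 + r ^ 2) - (W.re / r) ^ 2 = _
    field_simp
    ring
  rw [e, abs_mul, abs_of_nonneg (sq_nonneg _), abs_div, abs_mul,
    abs_of_pos (by linarith : 0 < r + 1), abs_of_pos (by positivity : 0 < 1 + r ^ 2)]
  have h1 : |r - 1| * (r + 1) / (1 + r ^ 2) ≤ 2 * |r - 1| := by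
    rw [div_le_iff₀ (by positivity)]
    have h2 : r + 1 ≤ 2 * (1 + r ^ 2) := by nlinarith [sq_nonneg (r - 1)]
    have h3 := mul_le_mul_of_nonneg_left h2 (abs_nonneg (r - 1))
    linarith
  have h0 : 0 ≤ |r - 1| * (r + 1) / (1 + r ^ 2) := by positivity
  calc (W.re / r) ^ 2 * (|r - 1| * (r + 1) / (1 + r ^ 2)) ≤
        1 * (|r - 1| * (r + 1) / (1 + r ^ 2)) := mul_le_mul_of_nonneg_right hu h0
    _ ≤ 2 * |r - 1| := by rw [one_mul]; exact h1

/-- AM-GM for the square root -/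
lemma sqrt_le {t ε : ℝ} (ht : 0 ≤ t) (hε : 0 < ε) : Real.sqrt t ≤ ε + t / (4 * ε) := by
  have h1 := Real.sq_sqrt ht
  set x := Real.sqrt t
  rw [← h1]
  have h2 : 0 ≤ (x - 2 * ε) ^ 2 / (4 * ε) := by positivity
  have h3 : (x - 2 * ε) ^ 2 / (4 * ε) = x ^ 2 / (4 * ε) - x + ε := by
    field_simp
    ring
  linarith

theorem t_KW (h1 : S_PM) (h2 : S_B2Q) (h3 : S_MOM) (h4 : S_BDG) (h5 : S_PTQ) (h6 : S_KZ) :
    S_KW := by
  intro p s hp hs η hη
  obtain ⟨KM, hKM, hMOM⟩ := h3 p hp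
  obtain ⟨KB, hKB, hBDG⟩ := h4 p hp
  obtain ⟨KP, hKP, hPTQ⟩ := h5 p s hp hs 1 one_pos
  obtain ⟨a₁, T₁, ha₁, hT₁, hKZ⟩ := h6 p hp (η / 4) (by positivity)
  have hp0 : 0 < p := by linarith
  have hs0 : 0 < s := by linarith
  set c : ℝ := p / 2 * |p - 2| with hc
  have hc0 : 0 ≤ c := by positivity
  set ε : ℝ := η / (8 * KP * (c + 1)) with hε
  have hε0 : 0 < ε := by positivity
  set G : ℝ := (KB + 4 * KP) * KM + 2 + KP * KM / (2 * ε) with hG
  have hG0 : 0 < G := by positivity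
  refine ⟨min a₁ (min (1 / 4) (η / (4 * (c + 1) * G))), T₁, by positivity, hT₁, ?_⟩
  intro m hm z w a hcrit hz0 ha0 haa hTa hz hchi hprod hwa hl
  have haa1 : a ≤ a₁ := haa.trans (min_le_left _ _)
  have ha4 : a ≤ 1 / 4 := haa.trans ((min_le_right _ _).trans (min_le_left _ _))
  have haG : a ≤ η / (4 * (c + 1) * G) :=
    haa.trans ((min_le_right _ _).trans (min_le_right _ _))
  have hm0 : (0 : ℝ) < m := by exact_mod_cast hm
  obtain ⟨S, hS0, hS1, hS2, hSw⟩ := h1 m z w hcrit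
  have hZ := hKZ m hm z a hz0 ha0 haa1 hTa hz hchi hprod
  have hna : ‖(a : ℂ)‖ = a := by rw [Complex.norm_real, Real.norm_of_nonneg ha0]
  have hM := hMOM (m + 1) z (by rw [hz]; push_cast; ring) hchi a (by rw [hna]; linarith)
  rw [hna] at hM
  push_cast at hM
  have haβ : a ^ (min p 2) ≤ a := by
    have h : (1 : ℝ) ≤ min p 2 := le_min hp.le (by norm_num)
    calc a ^ (min p 2) ≤ a ^ (1 : ℝ) :=
          Real.rpow_le_rpow_of_exponent_ge' ha0 (by linarith) zero_le_one h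
      _ = a := Real.rpow_one a
  -- the quantities
  obtain ⟨r, hr⟩ : ∃ r : Fin m → ℝ, ∀ k, r k = ‖w k - a‖ := ⟨_, fun _ => rfl⟩
  obtain ⟨A, hA⟩ : ∃ A : Fin m → ℝ, ∀ k, A k = ∑ j, S k j * ‖z j - a‖ ^ p := ⟨_, fun _ => rfl⟩
  obtain ⟨Q, hQ⟩ : ∃ Q : Fin m → ℝ, ∀ k, Q k = ∑ j, S k j * q2 (z j) := ⟨_, fun _ => rfl⟩
  obtain ⟨Θ, hΘ⟩ : ∃ Θ : Fin m → ℝ, ∀ k, Θ k = Th p s (r k) := ⟨_, fun _ => rfl⟩
  obtain ⟨u, hu⟩ : ∃ u : Fin m → ℝ, ∀ k, u k = (((a : ℂ) - w k).re / ‖(a : ℂ) - w k‖) ^ 2 :=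
    ⟨_, fun _ => rfl⟩
  have hr0 : ∀ k, 0 < r k := fun k => by
    rw [hr]
    exact norm_pos_iff.2 (sub_ne_zero.2 (hwa k))
  have hb0 : ∀ k, (r k) ^ p ≤ A k := fun k => by
    rw [hr, hA]
    exact breg_nonneg (h2 p hp) (S k) z (w k) (hS0 k) (hS1 k) (hSw k)
  have hΘ0 : ∀ k, 0 ≤ Θ k := fun k => by
    rw [hΘ]
    exact (hPTQ (r k) (hr0 k)).1
  -- sums over the matrix
  have hcol : ∀ f : Fin (m + 1) → ℝ, ∑ k, ∑ j, S k j * f j = (m : ℝ) / (m + 1) * ∑ j, f j := by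
    intro f
    rw [Finset.sum_comm, Finset.mul_sum]
    refine Finset.sum_congr rfl fun j _ => ?_
    rw [← Finset.sum_mul, hS2]
  have hsumA : ∑ k, A k = (m : ℝ) / (m + 1) * ∑ j, ‖z j - a‖ ^ p := by
    simp only [hA]
    exact hcol _
  have hsumQ : ∑ k, Q k = (m : ℝ) / (m + 1) * ∑ j, q2 (z j) := by
    simp only [hQ]
    exact hcol _
  have hm1 : 0 ≤ (m : ℝ) / (m + 1) := by positivity
  have hsumA1 : ∑ k, A k ≤ m * (1 + KM * a) := by
    rw [hsumA]
    have h7 : ∑ j, ‖z j - a‖ ^ p ≤ (m + 1) * (1 + KM * a) := by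
      refine hM.trans ?_
      gcongr
    refine (mul_le_mul_of_nonneg_left h7 hm1).trans (le_of_eq ?_)
    field_simp
  have hsumA2 : ∑ k, A k ≤ m + p / 2 * a ^ 2 * (m + (p - 2) * ∑ k, Q k) + η / 4 * (m * a ^ 2) := by
    rw [hsumA]
    refine (mul_le_mul_of_nonneg_left hZ hm1).trans ?_
    have e1 : ∑ j, (1 + (p - 2) * q2 (z j)) = (m + 1) + (p - 2) * ∑ j, q2 (z j) := by
      rw [Finset.sum_add_distrib, ← Finset.mul_sum, Finset.sum_const, Finset.card_univ,
        Fintype.card_fin, nsmul_eq_mul, mul_one]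
      push_cast
      ring
    rw [e1, hsumQ]
    have e2 : (m : ℝ) / (m + 1) * ((m + 1) + p / 2 * a ^ 2 *
        ((m + 1) + (p - 2) * ∑ j, q2 (z j)) + η / 4 * (m * a ^ 2)) =
        m + p / 2 * a ^ 2 * (m + (p - 2) * ((m : ℝ) / (m + 1) * ∑ j, q2 (z j))) +
          (m : ℝ) / (m + 1) * (η / 4 * (m * a ^ 2)) := by
      field_simp
    rw [e2]
    have h8 : (m : ℝ) / (m + 1) ≤ 1 := by
      rw [div_le_one (by positivity)]
      linarith
    have h9 : 0 ≤ η / 4 * (m * a ^ 2) := by positivity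
    nlinarith [mul_le_mul_of_nonneg_right h8 h9]
  -- the sum of `Θ`
  have hl' : ∑ k, (r k)⁻¹ ^ s ≤ m := by
    refine le_trans (le_of_eq ?_) hl
    refine Finset.sum_congr rfl fun k _ => ?_
    rw [hr, norm_inv, norm_sub_rev]
  have hΘs : ∑ k, Θ k + m ≤ ∑ k, (r k) ^ p := by
    have e1 : ∑ k, Θ k = ∑ k, (r k) ^ p - m + p / s * (∑ k, (r k)⁻¹ ^ s - m) := by
      simp only [hΘ, Th]
      rw [Finset.sum_add_distrib, Finset.sum_sub_distrib, ← Finset.mul_sum,
        Finset.sum_sub_distrib, Finset.sum_const, Finset.card_univ, Fintype.card_fin,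
        nsmul_eq_mul, mul_one]
    have h7 : 0 ≤ p / s * (m - ∑ k, (r k)⁻¹ ^ s) := mul_nonneg (by positivity) (by linarith)
    rw [e1]
    linarith
  have htot : ∑ k, (A k - (r k) ^ p) + ∑ k, Θ k ≤ KM * (m * a) := by
    rw [Finset.sum_sub_distrib]
    linarith
  have hbs : 0 ≤ ∑ k, (A k - (r k) ^ p) := Finset.sum_nonneg fun k _ => sub_nonneg.2 (hb0 k)
  have hΘss : 0 ≤ ∑ k, Θ k := Finset.sum_nonneg fun k _ => hΘ0 k
  -- one term
  have hone : ∀ k, |Q k - u k| ≤ KB * (A k - (r k) ^ p) + 4 * KP * Θ k + 2 * a +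
      2 * KP * (ε + Θ k / (4 * ε)) := by
    intro k
    have hbk : 0 ≤ A k - (r k) ^ p := sub_nonneg.2 (hb0 k)
    have hΘk := hΘ0 k
    obtain ⟨-, p2, -, -, p5, -⟩ := hPTQ (r k) (hr0 k)
    rw [← hΘ] at p2 p5
    have a1 : |Q k - q2 (w k)| ≤ KB * (A k - (r k) ^ p) + 2 * KP * Θ k := by
      by_cases hrk : r k < 1 / 2 ∨ 2 < r k
      · have h7 := p2 hrk
        have h8 : 0 ≤ (r k) ^ p := Real.rpow_nonneg (hr0 k).le p
        have h9 : 0 ≤ (r k)⁻¹ ^ s := Real.rpow_nonneg (inv_nonneg.2 (hr0 k).le) s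
        have h10 : 0 ≤ Q k := by
          rw [hQ]
          exact Finset.sum_nonneg fun j _ => mul_nonneg (hS0 k j) (q2_nonneg _)
        have h11 : Q k ≤ 2 := by
          rw [hQ]
          calc ∑ j, S k j * q2 (z j) ≤ ∑ j, S k j * 2 :=
                Finset.sum_le_sum fun j _ => mul_le_mul_of_nonneg_left (q2_le _) (hS0 k j)
            _ = 2 := by rw [← Finset.sum_mul, hS1, one_mul]
        have h12 := q2_nonneg (w k)
        have h13 := q2_le (w k)
        have h14 : |Q k - q2 (w k)| ≤ 2 := by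
          rw [abs_le]
          constructor <;> linarith
        have h15 : 0 ≤ KB * (A k - (r k) ^ p) := mul_nonneg hKB.le hbk
        linarith
      · push Not at hrk
        rw [hr] at hrk
        obtain ⟨γ, hγ⟩ := hBDG a ha0 ha4 (w k) hrk.1 hrk.2
        have h7 := mean_q2 (S k) z (w k) γ (hS0 k) (hS1 k) (hSw k) hγ
        rw [← hQ, ← hA, ← hr] at h7
        have h8 : 0 ≤ 2 * KP * Θ k := by positivity
        linarith
    have a2 : |q2 (w k) - q2 (w k - a)| ≤ 2 * a := by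
      have h7 := q2_shift (w k - a) ha0
      rwa [sub_add_cancel] at h7
    have a3 : |q2 (w k - a) - u k| ≤ 2 * |r k - 1| := by
      have h7 := q2_circle (w k - a) (sub_ne_zero.2 (hwa k))
      have e1 : ((w k - a).re / ‖w k - a‖) ^ 2 = u k := by
        rw [hu, norm_sub_rev (a : ℂ) (w k), div_pow, div_pow]
        congr 1
        simp only [Complex.sub_re]
        ring
      rw [e1, ← hr] at h7
      exact h7
    have a4 : |r k - 1| ≤ KP * (Θ k + (ε + Θ k / (4 * ε))) := by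
      refine p5.trans ?_
      have := sqrt_le hΘk hε0
      gcongr
    have a5 : |Q k - u k| ≤ |Q k - q2 (w k)| + |q2 (w k) - q2 (w k - a)| +
        |q2 (w k - a) - u k| := by
      have e1 : Q k - u k = (Q k - q2 (w k)) + (q2 (w k) - q2 (w k - a)) +
          (q2 (w k - a) - u k) := by ring
      rw [e1]
      exact abs_add_three _ _ _
    linarith
  have hsum : |∑ k, Q k - ∑ k, u k| ≤ m * (G * a + 2 * KP * ε) := by
    rw [← Finset.sum_sub_distrib]
    refine (Finset.abs_sum_le_sum_abs _ _).trans ((Finset.sum_le_sum fun k _ => hone k).trans ?_)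
    have e1 : ∑ k, (KB * (A k - (r k) ^ p) + 4 * KP * Θ k + 2 * a +
        2 * KP * (ε + Θ k / (4 * ε))) = KB * ∑ k, (A k - (r k) ^ p) + 4 * KP * ∑ k, Θ k +
        m * (2 * a) + m * (2 * KP * ε) + KP / (2 * ε) * ∑ k, Θ k := by
      have h7 : ∀ k ∈ Finset.univ, KB * (A k - (r k) ^ p) + 4 * KP * Θ k + 2 * a +
          2 * KP * (ε + Θ k / (4 * ε)) = KB * (A k - (r k) ^ p) + 4 * KP * Θ k +
          (2 * a + 2 * KP * ε) + KP / (2 * ε) * Θ k := by
        intro k _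
        field_simp
        ring
      rw [Finset.sum_congr rfl h7, Finset.sum_add_distrib, Finset.sum_add_distrib,
        Finset.sum_add_distrib, ← Finset.mul_sum, ← Finset.mul_sum, ← Finset.mul_sum,
        Finset.sum_const, Finset.card_univ, Fintype.card_fin, nsmul_eq_mul]
      ring
    rw [e1]
    have b1 : ∑ k, (A k - (r k) ^ p) ≤ KM * (m * a) := by linarith
    have b2 : ∑ k, Θ k ≤ KM * (m * a) := by linarith
    have b3 : KB * ∑ k, (A k - (r k) ^ p) ≤ KB * (KM * (m * a)) :=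
      mul_le_mul_of_nonneg_left b1 hKB.le
    have b4 : 4 * KP * ∑ k, Θ k ≤ 4 * KP * (KM * (m * a)) :=
      mul_le_mul_of_nonneg_left b2 (by positivity)
    have b5 : KP / (2 * ε) * ∑ k, Θ k ≤ KP / (2 * ε) * (KM * (m * a)) :=
      mul_le_mul_of_nonneg_left b2 (by positivity)
    have e2 : m * (G * a + 2 * KP * ε) = KB * (KM * (m * a)) + 4 * KP * (KM * (m * a)) +
        m * (2 * a) + m * (2 * KP * ε) + KP / (2 * ε) * (KM * (m * a)) := by
      rw [hG]
      ring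
    rw [e2]
    linarith
  have hGa : G * a + 2 * KP * ε ≤ η / (2 * (c + 1)) := by
    have h7 : G * a ≤ G * (η / (4 * (c + 1) * G)) := mul_le_mul_of_nonneg_left haG hG0.le
    have h8 : G * (η / (4 * (c + 1) * G)) = η / (4 * (c + 1)) := by
      field_simp
    have h9 : 2 * KP * ε = η / (4 * (c + 1)) := by
      rw [hε]
      field_simp
      norm_num
    have h10 : η / (2 * (c + 1)) = η / (4 * (c + 1)) + η / (4 * (c + 1)) := by
      field_simp
      norm_num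
    rw [h9, h10]
    linarith
  have hfin : p / 2 * ((p - 2) * (∑ k, Q k - ∑ k, u k)) ≤ m * (η / 2) := by
    have h7 : p / 2 * ((p - 2) * (∑ k, Q k - ∑ k, u k)) ≤
        c * |∑ k, Q k - ∑ k, u k| := by
      refine (le_abs_self _).trans (le_of_eq ?_)
      rw [hc, abs_mul, abs_mul, abs_of_pos (by positivity : 0 < p / 2)]
      ring
    have h8 : c * |∑ k, Q k - ∑ k, u k| ≤ c * (m * (η / (2 * (c + 1)))) := by
      apply mul_le_mul_of_nonneg_left _ hc0
      exact hsum.trans (mul_le_mul_of_nonneg_left hGa hm0.le)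
    have h9 : c * (m * (η / (2 * (c + 1)))) ≤ m * (η / 2) := by
      have h10 : c / (c + 1) ≤ 1 := by
        rw [div_le_one (by positivity)]
        linarith
      have h11 : c * (m * (η / (2 * (c + 1)))) = c / (c + 1) * (m * (η / 2)) := by
        field_simp
      rw [h11]
      have h12 : 0 ≤ m * (η / 2) := by positivity
      nlinarith
    linarith
  -- conclusion
  have e1 : ∑ k, ‖(a : ℂ) - w k‖ ^ p = ∑ k, (r k) ^ p :=
    Finset.sum_congr rfl fun k _ => by rw [hr, norm_sub_rev]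
  have e2 : ∑ k, (((a : ℂ) - w k).re / ‖(a : ℂ) - w k‖) ^ 2 = ∑ k, u k :=
    Finset.sum_congr rfl fun k _ => (hu k).symm
  rw [e1, e2]
  have e3 : m * (1 + (p / 2 * (1 + (p - 2) * ((∑ k, u k) / m)) + η) * a ^ 2) =
      m + p / 2 * a ^ 2 * (m + (p - 2) * ∑ k, u k) + η * (m * a ^ 2) := by
    field_simp
    ring
  rw [e3]
  have h7 : ∑ k, (r k) ^ p ≤ ∑ k, A k := Finset.sum_le_sum fun k _ => hb0 k
  have h8 : p / 2 * a ^ 2 * (m + (p - 2) * ∑ k, Q k) = p / 2 * a ^ 2 * (m + (p - 2) * ∑ k, u k) +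
      a ^ 2 * (p / 2 * ((p - 2) * (∑ k, Q k - ∑ k, u k))) := by ring
  have h9 : a ^ 2 * (p / 2 * ((p - 2) * (∑ k, Q k - ∑ k, u k))) ≤ a ^ 2 * (m * (η / 2)) :=
    mul_le_mul_of_nonneg_left hfin (sq_nonneg a)
  have h10 : 0 ≤ η * (m * a ^ 2) := by positivity
  have h11 : a ^ 2 * (m * (η / 2)) = η / 2 * (m * a ^ 2) := by ring
  rw [h11] at h9
  linarith

end Pool.Agent.H225.BV
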